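import Pool.Agent.Helper5.RO.Goals
import Pool.Agent.Helper29.BL.ADD
import Pool.Agent.Helper29.BL.CAN
import Pool.Agent.Helper29.BL.QSN

/-!
# RO-RO: the theorem from its parts
-/

namespace Pool.Agent.Helper63.RO

open WeierstrassCurve Height Height.AdmissibleAbsValues MvPolynomial
open Pool.Agent.Helper5.RO Pool.Agent.Helper29.BL Pool.Agent.Helper29.GC

noncomputable section

/-- the real estimate -/
lemma real_est {κ n q A B M A₀ δ h c₀ Bn S T : ℝ} (hκ : 0 ≤ κ) (hn : 0 ≤ n) (hq1 : 1 ≤ q)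
    (hqB : q ≤ Bn) (hB : 2 ≤ B) (hA0 : 0 ≤ A₀) (hA : A₀ ≤ A) (hh : 0 ≤ h) (hc : 0 ≤ c₀)
    (hδ : 0 < δ) (h1 : κ * 4 * n ^ 2 ≤ δ / 2 * B ^ 2)
    (h2 : κ * n ^ 2 * Bn ^ 4 * (4 + 2 * M ^ 2) ≤ δ / 2 * A₀ ^ 2)
    (hS : S ≤ n * q ^ 2) (hT0 : 0 ≤ T)
    (hT : T ≤ n * ((4 * q ^ 2 + 4 * A ^ 2 / (q ^ 2 * B ^ 2) + 2 * M ^ 2 * q ^ 2) * h + c₀)) :
    κ * S * T ≤ δ * (A ^ 2 * h) + κ * n ^ 2 * Bn ^ 2 * c₀ := by
  have hB0 : 0 < B := by linarith
  have hq0 : 0 < q := by linarith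
  have e1 : κ * S * T ≤ κ * (n * q ^ 2) *
      (n * ((4 * q ^ 2 + 4 * A ^ 2 / (q ^ 2 * B ^ 2) + 2 * M ^ 2 * q ^ 2) * h + c₀)) := by
    have := mul_le_mul_of_nonneg_left hS hκ
    exact mul_le_mul this hT hT0 (by positivity)
  have e2 : κ * (n * q ^ 2) *
      (n * ((4 * q ^ 2 + 4 * A ^ 2 / (q ^ 2 * B ^ 2) + 2 * M ^ 2 * q ^ 2) * h + c₀)) =
      κ * n ^ 2 * q ^ 4 * (4 + 2 * M ^ 2) * h + (κ * 4 * n ^ 2) * (A ^ 2 / B ^ 2) * h +
        κ * n ^ 2 * q ^ 2 * c₀ := by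
    field_simp
    ring
  have e3 : κ * n ^ 2 * q ^ 4 * (4 + 2 * M ^ 2) ≤ κ * n ^ 2 * Bn ^ 4 * (4 + 2 * M ^ 2) := by
    gcongr
  have e4 : (κ * 4 * n ^ 2) * (A ^ 2 / B ^ 2) ≤ δ / 2 * A ^ 2 := by
    have := mul_le_mul_of_nonneg_right h1 (show 0 ≤ A ^ 2 / B ^ 2 by positivity)
    refine this.trans (le_of_eq ?_)
    field_simp
  have e5 : κ * n ^ 2 * q ^ 2 * c₀ ≤ κ * n ^ 2 * Bn ^ 2 * c₀ := by gcongr
  have e6 : A₀ ^ 2 ≤ A ^ 2 := by gcongr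
  have e7 : κ * n ^ 2 * q ^ 4 * (4 + 2 * M ^ 2) ≤ δ / 2 * A ^ 2 := by
    nlinarith
  have e8 := mul_le_mul_of_nonneg_right e7 hh
  have e9 := mul_le_mul_of_nonneg_right e4 hh
  nlinarith

lemma sq_est {x y q A B M : ℝ} (hq1 : 1 ≤ q) (hB : 2 ≤ B) (hA : 0 ≤ A)
    (hx : |x| ≤ q + A / (q * B)) (hy : |y| ≤ M * q) :
    (x - y) ^ 2 ≤ 4 * q ^ 2 + 4 * A ^ 2 / (q ^ 2 * B ^ 2) + 2 * M ^ 2 * q ^ 2 := by
  have h1 : x ^ 2 ≤ (q + A / (q * B)) ^ 2 := by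
    rw [← sq_abs]; gcongr
  have h2 : y ^ 2 ≤ (M * q) ^ 2 := by
    rw [← sq_abs]; gcongr
  have h3 : (A / (q * B)) ^ 2 = A ^ 2 / (q ^ 2 * B ^ 2) := by
    rw [div_pow, mul_pow]
  have h4 : 4 * A ^ 2 / (q ^ 2 * B ^ 2) = 4 * (A / (q * B)) ^ 2 := by
    rw [h3]; ring
  rw [h4]
  nlinarith [sq_nonneg (x + y), sq_nonneg (q - A / (q * B))]

section tors

variable {G : Type} [AddCommGroup G] {H : G → ℝ}

lemma H_tors (hH : IsQuad H) {N : ℕ} (hN : 0 < N) (P x : G) (k : ℤ)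
    (h : N • (x - k • P) = 0) : H x = (k : ℝ) ^ 2 * H P := by
  have h1 : N • x = ((N : ℤ) * k) • P := by
    rw [smul_sub, sub_eq_zero] at h
    rw [h, mul_smul, natCast_zsmul]
  have h2 := hH.nsmul N x
  rw [h1, hH.zsmul] at h2
  have h3 : (N : ℝ) ^ 2 ≠ 0 := by positivity
  apply mul_left_cancel₀ h3
  rw [← h2]
  push_cast
  ring

end tors

/-- the case `D = 0` -/
lemma gF_zero {K : Type} [Field K] [AdmissibleAbsValues K] {n : ℕ} {ι : Type}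
    (f : ι → MvPolynomial (Fin n) K) (hf : ∀ j i, degreeOf i (f j) ≤ 0) (x y : Fin n → K) :
    gF 0 f x = gF 0 f y := by
  have h1 : ∀ j (x : Fin n → K), eval x (f j) = ∑ m ∈ (f j).support, coeff m (f j) := by
    intro j x
    rw [eval_eq']
    refine Finset.sum_congr rfl fun m hm => ?_
    have h2 : ∀ i, m i = 0 := by
      intro i
      have h3 := hf j i
      rw [degreeOf_eq_sup] at h3
      exact Nat.le_zero.1 ((Finset.le_sup (f := fun m : Fin n →₀ ℕ => m i) hm).trans h3)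
    simp [h2]
  have h2 : ∀ v, Fm f v x = Fm f v y := by
    intro v
    simp only [Fm, h1]
  simp only [gF, lamF, h2, pow_zero]

set_option maxHeartbeats 4000000 in
theorem gRO (hEST : G_EST) (hSH : G_SHIFT) (hDIR : G_DIR) (hSTR : G_STR) (hTOR : G_TOR)
    (hREL : G_REL) : G_RO := by
  intro K _ _ _ W _ n hn ι _ D f hf δ hδ
  classical
  rcases Nat.eq_zero_or_pos D with hD0 | hD
  · subst hD0
    refine ⟨1, max 0 (gF 0 f (fun _ => 0)), one_ne_zero, le_max_left _ _, fun z _ _ _ => ?_⟩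
    rw [gF_zero f hf.deg _ (fun _ => 0)]
    have h1 : 0 ≤ δ * ∑ i, hx (z i) := mul_nonneg hδ.le (Finset.sum_nonneg fun i _ => hx_nonneg _)
    have h2 := le_max_right 0 (gF 0 f (fun _ => (0 : K)))
    linarith
  obtain ⟨H, c₀, hH⟩ := can_of (par_of add dbl xeq) K W
  have hc₀ : 0 ≤ c₀ := (abs_nonneg _).trans (hH.near 0)
  obtain ⟨Nt, hNt, hNt'⟩ := hTOR K W
  -- parameters
  set κ : ℝ := 2 ^ (2 * n + 1) * (D : ℝ) ^ 2 with hκ
  have hκ0 : 0 ≤ κ := by positivity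
  obtain ⟨B, hB⟩ := exists_nat_ge (max 2 (8 * κ * (n : ℝ) ^ 2 / δ))
  have hB2 : (2 : ℝ) ≤ B := (le_max_left _ _).trans hB
  have hB2' : 2 ≤ B := by exact_mod_cast hB2
  have hB3 : κ * 4 * (n : ℝ) ^ 2 ≤ δ / 2 * (B : ℝ) ^ 2 := by
    have h1 : 8 * κ * (n : ℝ) ^ 2 / δ ≤ B := (le_max_right _ _).trans hB
    rw [div_le_iff₀ hδ] at h1
    have h2 : (B : ℝ) ≤ (B : ℝ) ^ 2 := by nlinarith
    have h3 : (B : ℝ) * δ ≤ (B : ℝ) ^ 2 * δ := mul_le_mul_of_nonneg_right h2 hδ.le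
    nlinarith
  -- the data of the directions
  have hdata : ∀ c : Fin n → ℕ, ∃ (ρ : MvPolynomial (Fin n) K) (C : ℝ) (M : ℕ), ρ ≠ 0 ∧ 0 ≤ C ∧
      (c ≠ 0 → (∀ (w : W.Point) (b : Fin n → W.Point), w ≠ 0 → (∀ i, b i ≠ 0) →
        (∀ i, c i • w + b i ≠ 0) → eval (fun i => xc (b i)) ρ ≠ 0 →
        gF D f (fun i => xc (c i • w + b i)) ≤
          2 ^ (2 * n + 1) * (D : ℝ) ^ 2 * (∑ i, (c i : ℝ) ^ 2) * ∑ i, hx (b i) + C) ∧
        (∀ (P : W.Point) (z : Fin n → W.Point) (t : ℤ), (∀ k : ℤ, k ≠ 0 → k • P ≠ 0) →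
          (∀ i, z i ≠ 0) → eval (fun i => xc (z i)) ρ ≠ 0 → ∃ s : ℕ, s ≤ M ∧ (t + s) • P ≠ 0 ∧
          (∀ i, z i - c i • ((t + s) • P) ≠ 0) ∧
          eval (fun i => xc (z i - c i • ((t + s) • P))) ρ ≠ 0)) := by
    intro c
    by_cases hc : c = 0
    · exact ⟨1, 0, 0, one_ne_zero, le_rfl, fun h => absurd hc h⟩
    · obtain ⟨ρ, C, hρ, hC, h1⟩ := hEST K W n hn ι D hD f hf c hc
      obtain ⟨M, hM⟩ := hSH K W n ρ c
      exact ⟨ρ, C, M, hρ, hC, fun _ => ⟨h1, hM⟩⟩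
  choose ρ Cc Mc hρ hCc hc using hdata
  set 𝒞 : Finset (Fin n → ℕ) := Fintype.piFinset (fun _ : Fin n => Finset.range (B ^ n + 1))
    with h𝒞
  set M : ℕ := 𝒞.sup Mc with hM
  set C₁ : ℝ := ∑ c ∈ 𝒞, Cc c with hC₁
  have hC₁0 : 0 ≤ C₁ := Finset.sum_nonneg fun c _ => hCc c
  -- the bound for the coefficients
  obtain ⟨A₀, hA₀⟩ := exists_nat_ge (max 1
    (2 * (κ * (n : ℝ) ^ 2 * ((B : ℝ) ^ n) ^ 4 * (4 + 2 * (M : ℝ) ^ 2)) / δ))
  have hA1 : (1 : ℝ) ≤ A₀ := (le_max_left _ _).trans hA₀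
  have hA1' : 1 ≤ A₀ := by exact_mod_cast hA1
  have hA2 : κ * (n : ℝ) ^ 2 * ((B : ℝ) ^ n) ^ 4 * (4 + 2 * (M : ℝ) ^ 2) ≤
      δ / 2 * (A₀ : ℝ) ^ 2 := by
    have h1 := (le_max_right 1 _).trans hA₀
    rw [div_le_iff₀ hδ] at h1
    have h2 : (A₀ : ℝ) ≤ (A₀ : ℝ) ^ 2 := by nlinarith
    have h3 : (A₀ : ℝ) * δ ≤ (A₀ : ℝ) ^ 2 * δ := mul_le_mul_of_nonneg_right h2 hδ.le
    linarith
  -- the relations
  set i₀ : Fin n := ⟨0, by omega⟩ with hi₀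
  set i₁ : Fin n := ⟨1, by omega⟩ with hi₁
  have hi : i₀ ≠ i₁ := by
    intro h
    have := congrArg Fin.val h
    simp [hi₀, hi₁] at this
  have hrel : ∀ m : ℕ × ℕ, ∃ Z : MvPolynomial (Fin n) K, Z ≠ 0 ∧ ((m.1 ≠ 0 ∨ m.2 ≠ 0) →
      ∀ z : Fin n → W.Point, z i₀ ≠ 0 → z i₁ ≠ 0 →
      (m.1 • z i₀ = m.2 • z i₁ ∨ m.1 • z i₀ = -(m.2 • z i₁)) →
        eval (fun i => xc (z i)) Z = 0) := by
    intro m
    by_cases hm : m.1 ≠ 0 ∨ m.2 ≠ 0
    · obtain ⟨Z, hZ, h⟩ := hREL K W n i₀ i₁ hi m.1 m.2 hm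
      exact ⟨Z, hZ, fun _ => h⟩
    · exact ⟨1, one_ne_zero, fun h => absurd h hm⟩
  choose Zr hZr hZr' using hrel
  set ℛ : Finset (ℕ × ℕ) := Finset.range (Nt * A₀ + 1) ×ˢ Finset.range (Nt * A₀ + 1) with hℛ
  refine ⟨(∏ c ∈ 𝒞, ρ c) * ∏ m ∈ ℛ, Zr m,
    δ * c₀ + κ * (n : ℝ) ^ 2 * ((B : ℝ) ^ n) ^ 2 * c₀ + C₁, ?_, by positivity, ?_⟩
  · exact mul_ne_zero (Finset.prod_ne_zero_iff.2 fun c _ => hρ c)
      (Finset.prod_ne_zero_iff.2 fun m _ => hZr m)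
  intro z hz hrk hZ
  rw [map_mul, map_prod, map_prod] at hZ
  have hZ1 : ∀ c ∈ 𝒞, eval (fun i => xc (z i)) (ρ c) ≠ 0 :=
    Finset.prod_ne_zero_iff.1 (left_ne_zero_of_mul hZ)
  have hZ2 : ∀ m ∈ ℛ, eval (fun i => xc (z i)) (Zr m) ≠ 0 :=
    Finset.prod_ne_zero_iff.1 (right_ne_zero_of_mul hZ)
  have hnorel : ∀ m m' : ℕ, m ≤ Nt * A₀ → m' ≤ Nt * A₀ → (m ≠ 0 ∨ m' ≠ 0) →
      ¬ (m • z i₀ = m' • z i₁ ∨ m • z i₀ = -(m' • z i₁)) := by
    intro m m' h1 h2 h3 h4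
    refine hZ2 (m, m') ?_ (hZr' (m, m') h3 z (hz _) (hz _) h4)
    rw [hℛ, Finset.mem_product, Finset.mem_range, Finset.mem_range]
    exact ⟨Nat.lt_succ_of_le h1, Nat.lt_succ_of_le h2⟩
  have hno0 : Nt • z i₀ ≠ 0 := by
    intro h
    refine hnorel Nt 0 (Nat.le_mul_of_pos_right _ hA1') (Nat.zero_le _) (Or.inl hNt.ne') ?_
    left
    rw [h, zero_smul]
  obtain ⟨P, a, ha⟩ := hSTR W.Point n z hrk
  have ht : ∀ i, Nt • (z i - a i • P) = 0 := by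
    intro i
    obtain ⟨N, hN, h⟩ := ha i
    exact hNt' _ N hN h
  have ht' : ∀ i, Nt • z i = ((Nt : ℤ) * a i) • P := by
    intro i
    have h := ht i
    rw [smul_sub, sub_eq_zero] at h
    rw [h, mul_smul, natCast_zsmul]
  -- `P` has infinite order
  have hinf : ∀ k : ℤ, k ≠ 0 → k • P ≠ 0 := by
    intro k hk h
    have h1 : k.natAbs • P = 0 := by
      rcases Int.natAbs_eq k with h2 | h2
      · rw [h2] at h
        simpa using h
      · rw [h2, neg_smul, neg_eq_zero] at h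
        simpa using h
    have h2 := hNt' P k.natAbs (Int.natAbs_pos.2 hk) h1
    apply hno0
    rw [ht' i₀, mul_comm, mul_smul, natCast_zsmul, h2, smul_zero]
  -- `A`
  set A : ℕ := Finset.univ.sup (fun i => (a i).natAbs) with hA
  have hle : ∀ i, (a i).natAbs ≤ A := fun i =>
    Finset.le_sup (f := fun i => (a i).natAbs) (Finset.mem_univ i)
  obtain ⟨k₀, -, hk₀⟩ := Finset.exists_mem_eq_sup (Finset.univ : Finset (Fin n))
    ⟨i₀, Finset.mem_univ _⟩ (fun i => (a i).natAbs)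
  have hAA : A₀ ≤ A := by
    by_contra hcon
    push Not at hcon
    by_cases h0 : a i₀ = 0
    · apply hno0
      rw [ht' i₀, h0, mul_zero, zero_smul]
    · have hb : ∀ i, Nt * (a i).natAbs ≤ Nt * A₀ := fun i =>
        Nat.mul_le_mul_left _ ((hle i).trans hcon.le)
      refine hnorel (Nt * (a i₁).natAbs) (Nt * (a i₀).natAbs) (hb _) (hb _)
        (Or.inr (Nat.mul_ne_zero hNt.ne' (Int.natAbs_ne_zero.2 h0))) ?_
      have e1 : ∀ i j, (Nt * (a i).natAbs) • z j = ((a i).natAbs : ℤ) • (((Nt : ℤ) * a j) • P) := by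
        intro i j
        rw [mul_comm, mul_smul, ht' j, natCast_zsmul]
      rw [e1, e1, ← mul_smul, ← mul_smul]
      have e2 : ∀ x y : ℤ, ((x.natAbs : ℤ) * ((Nt : ℤ) * y) = (y.natAbs : ℤ) * ((Nt : ℤ) * x)) ∨
          ((x.natAbs : ℤ) * ((Nt : ℤ) * y) = -((y.natAbs : ℤ) * ((Nt : ℤ) * x))) := by
        intro x y
        rcases abs_choice x with hx | hx <;> rcases abs_choice y with hy | hy
        · left
          rw [Int.natCast_natAbs, Int.natCast_natAbs, hx, hy]; ring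
        · right
          rw [Int.natCast_natAbs, Int.natCast_natAbs, hx, hy]; ring
        · right
          rw [Int.natCast_natAbs, Int.natCast_natAbs, hx, hy]; ring
        · left
          rw [Int.natCast_natAbs, Int.natCast_natAbs, hx, hy]; ring
      rcases e2 (a i₁) (a i₀) with h | h
      · left; rw [h]
      · right; rw [h, neg_smul]
  have hA1 : 1 ≤ A := hA1'.trans hAA
  obtain ⟨c, t, q, hc0, hq1, hqB, hcq, hct⟩ := hDIR n B hB2' a A hA1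
    (fun i => by rw [Int.abs_eq_natAbs]; exact_mod_cast hle i)
    ⟨k₀, by rw [Int.abs_eq_natAbs, ← hk₀]⟩
  -- change of signs
  set z' : Fin n → W.Point := fun i => if c i < 0 then -z i else z i with hz'
  set a' : Fin n → ℤ := fun i => if c i < 0 then -a i else a i with ha'
  set c' : Fin n → ℕ := fun i => (c i).natAbs with hc'
  have hxz' : ∀ i, xc (z' i) = xc (z i) := by
    intro i
    simp only [hz']
    split_ifs
    · exact (xeq K W).2 _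
    · rfl
  have hz'0 : ∀ i, z' i ≠ 0 := by
    intro i
    simp only [hz']
    split_ifs
    · exact neg_ne_zero.2 (hz i)
    · exact hz i
  have hta' : ∀ i, Nt • (z' i - a' i • P) = 0 := by
    intro i
    simp only [hz', ha']
    split_ifs
    · rw [neg_smul, ← neg_sub', smul_neg, ht i, neg_zero]
    · exact ht i
  have hc'c : ∀ i, (c' i : ℤ) = if c i < 0 then -c i else c i := by
    intro i
    simp only [hc']
    split_ifs with h
    · exact Int.ofNat_natAbs_of_nonpos h.le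
    · exact Int.natAbs_of_nonneg (not_lt.1 h)
  have hact : ∀ i, |(a' i : ℝ) - t * (c' i : ℝ)| ≤ (q : ℝ) + (A : ℝ) / (q * B) := by
    intro i
    refine le_trans (le_of_eq ?_) (hct i)
    have h1 : (c' i : ℝ) = ((c' i : ℤ) : ℝ) := by push_cast; rfl
    rw [h1, hc'c i]
    simp only [ha']
    split_ifs
    · push_cast
      rw [← abs_neg]
      congr 1
      ring
    · rfl
  have hc'0 : c' ≠ 0 := by
    intro h
    apply hc0
    funext i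
    have := congrFun h i
    simpa [hc'] using this
  have hc'q : ∀ i, c' i ≤ q := by
    intro i
    have := hcq i
    rw [Int.abs_eq_natAbs] at this
    exact_mod_cast this
  have hc'𝒞 : c' ∈ 𝒞 := by
    rw [h𝒞, Fintype.mem_piFinset]
    intro i
    rw [Finset.mem_range]
    exact Nat.lt_succ_of_le ((hc'q i).trans hqB)
  obtain ⟨hE, hS⟩ := hc c' hc'0
  have hev : eval (fun i => xc (z' i)) (ρ c') ≠ 0 := by
    simp only [hxz']
    exact hZ1 c' hc'𝒞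
  obtain ⟨s, hs, hw, hb, hρb⟩ := hS P z' t hinf hz'0 hev
  set w : W.Point := (t + s) • P with hwdef
  set b : Fin n → W.Point := fun i => z' i - c' i • w with hbdef
  have hcb : ∀ i, c' i • w + b i = z' i := by
    intro i
    simp only [hbdef]
    abel
  have hfin := hE w b hw hb (fun i => by rw [hcb i]; exact hz'0 i) hρb
  simp only [hcb, hxz'] at hfin
  refine hfin.trans ?_
  have hh := hH.quad.nonneg P
  -- the heights of the `b i`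
  have hHb : ∀ i, H (b i) = (((a' i - (t + s) * c' i : ℤ)) : ℝ) ^ 2 * H P := by
    intro i
    refine H_tors hH.quad hNt P (b i) _ ?_
    have e1 : b i - (a' i - (t + s) * c' i) • P = z' i - a' i • P := by
      simp only [hbdef, hwdef]
      rw [sub_smul, mul_comm, mul_smul, natCast_zsmul]
      abel
    rw [e1]
    exact hta' i
  have hsM : (s : ℝ) ≤ M := by
    have h1 : s ≤ M := hs.trans (Finset.le_sup (f := Mc) hc'𝒞)
    exact_mod_cast h1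
  have hq1r : (1 : ℝ) ≤ q := by exact_mod_cast hq1
  have hhx : ∀ i, hx (b i) ≤ (4 * (q : ℝ) ^ 2 + 4 * (A : ℝ) ^ 2 / ((q : ℝ) ^ 2 * (B : ℝ) ^ 2) +
      2 * (M : ℝ) ^ 2 * (q : ℝ) ^ 2) * H P + c₀ := by
    intro i
    have h1 := (abs_le.1 (hH.near (b i))).1
    have h2 := sq_est (x := (a' i : ℝ) - t * (c' i : ℝ)) (y := (s : ℝ) * c' i) (M := (M : ℝ))
      hq1r hB2 (Nat.cast_nonneg A) (hact i) (by
        rw [abs_of_nonneg (by positivity)]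
        have : (c' i : ℝ) ≤ q := by exact_mod_cast hc'q i
        gcongr)
    have h3 := mul_le_mul_of_nonneg_right h2 hh
    have h4 : H (b i) = ((a' i : ℝ) - t * (c' i : ℝ) - (s : ℝ) * c' i) ^ 2 * H P := by
      rw [hHb i]
      push_cast
      ring
    rw [← h4] at h3
    linarith
  have hsumx : ∑ i, hx (b i) ≤ (n : ℝ) * ((4 * (q : ℝ) ^ 2 + 4 * (A : ℝ) ^ 2 /
      ((q : ℝ) ^ 2 * (B : ℝ) ^ 2) + 2 * (M : ℝ) ^ 2 * (q : ℝ) ^ 2) * H P + c₀) := by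
    refine (Finset.sum_le_sum fun i _ => hhx i).trans (le_of_eq ?_)
    rw [Finset.sum_const, Finset.card_univ, Fintype.card_fin, nsmul_eq_mul]
  have hsumc : ∑ i, (c' i : ℝ) ^ 2 ≤ (n : ℝ) * (q : ℝ) ^ 2 := by
    have h1 : ∀ i, (c' i : ℝ) ^ 2 ≤ (q : ℝ) ^ 2 := by
      intro i
      have : (c' i : ℝ) ≤ q := by exact_mod_cast hc'q i
      gcongr
    refine (Finset.sum_le_sum fun i _ => h1 i).trans (le_of_eq ?_)
    rw [Finset.sum_const, Finset.card_univ, Fintype.card_fin, nsmul_eq_mul]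
  have hqBr : (q : ℝ) ≤ (B : ℝ) ^ n := by exact_mod_cast hqB
  have hAAr : (A₀ : ℝ) ≤ A := by exact_mod_cast hAA
  have hmain := real_est (κ := κ) (n := n) (q := q) (A := A) (B := B) (M := M) (A₀ := A₀)
    (δ := δ) (h := H P) (c₀ := c₀) (Bn := (B : ℝ) ^ n) hκ0 (Nat.cast_nonneg n) hq1r hqBr hB2
    (Nat.cast_nonneg A₀) hAAr hh hc₀ hδ hB3 hA2 hsumc
    (Finset.sum_nonneg fun i _ => hx_nonneg (b i)) hsumx
  have hAH : (A : ℝ) ^ 2 * H P ≤ ∑ i, hx (z i) + c₀ := by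
    have h1 := H_tors hH.quad hNt P (z k₀) (a k₀) (ht k₀)
    have h2 : ((a k₀ : ℤ) : ℝ) ^ 2 = (A : ℝ) ^ 2 := by
      have h3 : ((a k₀).natAbs : ℤ) ^ 2 = (a k₀) ^ 2 := Int.natAbs_sq _
      have h4 : (((a k₀).natAbs : ℤ) : ℝ) ^ 2 = ((a k₀ : ℤ) : ℝ) ^ 2 := by exact_mod_cast h3
      rw [← h4, hk₀.symm, ← hA]
      push_cast
      rfl
    rw [← h2, ← h1]
    have h5 := (abs_le.1 (hH.near (z k₀))).2
    have h6 : hx (z k₀) ≤ ∑ i, hx (z i) :=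
      Finset.single_le_sum (f := fun i => hx (z i)) (fun i _ => hx_nonneg _) (Finset.mem_univ k₀)
    linarith
  have hCC : Cc c' ≤ C₁ := Finset.single_le_sum (f := Cc) (fun c _ => hCc c) hc'𝒞
  have h7 := mul_le_mul_of_nonneg_left hAH hδ.le
  have h8 : δ * (∑ i, hx (z i) + c₀) = δ * ∑ i, hx (z i) + δ * c₀ := by ring
  rw [h8] at h7
  linarith

end

end Pool.Agent.Helper63.RO
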