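import Pool.Agent.Helper5.RO.Goals

/-!
# RO-TD: the centre has codimension at least two
-/

namespace Pool.Agent.Helper63.RO

open MvPolynomial
open Pool.Agent.Helper5.RO Pool.Agent.Helper29.GC

noncomputable section

section hevlin

variable {R S : Type} [CommRing R] [CommRing S]

/-- `hev` as a finsupp sum -/
lemma hev_eq_sum (φ : R →+* S) {n : ℕ} (D : ℕ) (f : MvPolynomial (Fin n) R)
    (y : Fin n → Fin 2 → S) (s : Finset (Fin n →₀ ℕ)) (hs : f.support ⊆ s) :
    hev φ D f y = ∑ m ∈ s, φ (coeff m f) * ∏ i, (y i 0 ^ m i * y i 1 ^ (D - m i)) := by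
  rw [hev]
  refine Finset.sum_subset hs fun m _ hm => ?_
  rw [notMem_support_iff.1 hm, map_zero, zero_mul]

lemma hev_rename (φ : R →+* S) {n : ℕ} (D : ℕ) (f : MvPolynomial (Fin n) R)
    (σ : Equiv.Perm (Fin n)) (y : Fin n → Fin 2 → S) :
    hev φ D (rename σ f) y = hev φ D f (fun i => y (σ i)) := by
  classical
  rw [hev, support_rename_of_injective σ.injective,
    Finset.sum_image (fun a _ b _ h => Finsupp.mapDomain_injective σ.injective h), hev]
  refine Finset.sum_congr rfl fun m _ => ?_
  rw [coeff_rename_mapDomain _ σ.injective]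
  congr 1
  rw [← Equiv.prod_comp σ]
  refine Finset.prod_congr rfl fun i _ => ?_
  rw [Finsupp.mapDomain_apply σ.injective]

end hevlin

/-- the value at a point with `y_0 = (1,0)` -/
lemma hev_inf {K Ω : Type} [Field K] [Field Ω] [Algebra K Ω] {k : ℕ} (D : ℕ)
    (f : MvPolynomial (Fin (k + 1)) K) (hf : degreeOf 0 f ≤ D) (y : Fin (k + 1) → Fin 2 → Ω)
    (h0 : y 0 = ![1, 0]) (h1 : ∀ i : Fin k, y i.succ 1 = 1) :
    hev (algebraMap K Ω) D f y =
      aeval (fun i : Fin k => y i.succ 0) ((finSuccEquiv K k f).coeff D) := by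
  classical
  have hcoef : ∀ m ∈ f.support, m 0 ≤ D := by
    intro m hm
    rw [degreeOf_eq_sup] at hf
    exact (Finset.le_sup (f := fun m : Fin (k + 1) →₀ ℕ => m 0) hm).trans hf
  have key : ∀ (m : Fin (k + 1) →₀ ℕ) (a : K), m 0 ≤ D →
      aeval (fun i : Fin k => y i.succ 0) ((finSuccEquiv K k (monomial m a)).coeff D) =
        algebraMap K Ω a * ∏ i, (y i 0 ^ m i * y i 1 ^ (D - m i)) := by
    intro m a hm
    rw [monomial_eq, Finsupp.prod_fintype _ _ (fun i => pow_zero _), map_mul, map_prod,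
      Fin.prod_univ_succ, Fin.prod_univ_succ (n := k)]
    simp only [map_pow, finSuccEquiv_X_zero, finSuccEquiv_X_succ]
    have e1 : finSuccEquiv K k (C a) = Polynomial.C (C a) := by
      simp [finSuccEquiv_apply]
    have e2 : ∀ i : Fin k, (Polynomial.C (X i) : Polynomial (MvPolynomial (Fin k) K)) ^ m i.succ =
        Polynomial.C (X i ^ m i.succ) := fun i => by rw [Polynomial.C_pow]
    simp only [e2, e1]
    rw [← map_prod, mul_comm (Polynomial.X ^ m 0), Polynomial.coeff_C_mul,
      Polynomial.coeff_C_mul, Polynomial.coeff_X_pow, h0]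
    simp only [h1]
    by_cases hD : D = m 0
    · simp [hD]
    · have : D - m 0 ≠ 0 := by omega
      simp [hD, this]
  conv_rhs => rw [f.as_sum]
  rw [map_sum, Polynomial.finsetSum_coeff, map_sum, hev]
  exact Finset.sum_congr rfl fun m hm => (key m _ (hcoef m hm)).symm

lemma coeffD_ne {K : Type} [Field K] {n : ℕ} {ι : Type} {D : ℕ}
    {f : ι → MvPolynomial (Fin (n + 1)) K} (hf : GoodF D f) :
    ∃ j, (finSuccEquiv K n (f j)).coeff D ≠ 0 := by
  have hne : ∀ j, finSuccEquiv K n (f j) = 0 ↔ f j = 0 := fun j =>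
    map_eq_zero_iff _ (finSuccEquiv K n).injective
  have hdeg : ∀ j, (finSuccEquiv K n (f j)).natDegree ≤ D := fun j => by
    rw [natDegree_finSuccEquiv]; exact hf.deg j 0
  rcases Nat.eq_zero_or_pos D with hD | hD
  · by_contra hcon
    push Not at hcon
    have h0 : ∀ j, f j = 0 := by
      intro j
      have h1 : (finSuccEquiv K n (f j)).natDegree ≤ 0 := by rw [← hD]; exact hdeg j
      have h2 := hcon j
      rw [hD] at h2
      rw [← hne j, Polynomial.eq_C_of_natDegree_le_zero h1, h2, Polynomial.C_0]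
    have := hf.cop 0 fun j => by rw [h0 j]
    exact not_isUnit_zero this
  · obtain ⟨j, hj⟩ := hf.top 0
    refine ⟨j, ?_⟩
    have h0 : f j ≠ 0 := by
      intro h0
      rw [h0, degreeOf_zero] at hj
      omega
    have h1 : (finSuccEquiv K n (f j)).natDegree = D := by rw [natDegree_finSuccEquiv, hj]
    have h2 : (finSuccEquiv K n (f j)).leadingCoeff ≠ 0 := by
      rw [Ne, Polynomial.leadingCoeff_eq_zero, hne j]
      exact h0
    rwa [Polynomial.leadingCoeff, h1] at h2

lemma hev_aff {K Ω : Type} [Field K] [Field Ω] [Algebra K Ω] {n : ℕ} (D : ℕ)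
    (f : MvPolynomial (Fin n) K) (y : Fin n → Fin 2 → Ω) (h1 : ∀ i, y i 1 = 1) :
    hev (algebraMap K Ω) D f y = aeval (fun i => y i 0) f := by
  rw [hev, aeval_def, eval₂_eq']
  refine Finset.sum_congr rfl fun m _ => ?_
  simp [h1]

lemma aeval_cons_finSuccEquiv {K Ω : Type} [Field K] [Field Ω] [Algebra K Ω] {k : ℕ}
    (x : Fin (k + 1) → Ω) (f : MvPolynomial (Fin (k + 1)) K) :
    Polynomial.eval₂ (aeval (fun i : Fin k => x i.succ) : MvPolynomial (Fin k) K →ₐ[K] Ω).toRingHom
      (x 0) (finSuccEquiv K k f) = aeval x f := by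
  have h : (Polynomial.eval₂RingHom (aeval (fun i : Fin k => x i.succ) :
      MvPolynomial (Fin k) K →ₐ[K] Ω).toRingHom (x 0)).comp
      (finSuccEquiv K k : MvPolynomial (Fin (k + 1)) K →+* Polynomial (MvPolynomial (Fin k) K)) =
      (aeval x : MvPolynomial (Fin (k + 1)) K →ₐ[K] Ω).toRingHom := by
    apply MvPolynomial.ringHom_ext
    · intro r
      simp [finSuccEquiv_apply]
    · intro i
      refine Fin.cases ?_ (fun i => ?_) i
      · simp [finSuccEquiv_X_zero]
      · simp [finSuccEquiv_X_succ]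
  exact congrArg (fun g => g f) h

/-- the case `i₀ = 0` -/
lemma td0 {K : Type} [Field K] {k : ℕ} {ι : Type} [Fintype ι] {D : ℕ}
    {f : ι → MvPolynomial (Fin (k + 1)) K} (hf : GoodF D f) {Ω : Type} [Field Ω] [Algebra K Ω]
    (y : Fin (k + 1) → Fin 2 → Ω) (h0 : y 0 1 = 1 ∨ y 0 = ![1, 0])
    (h1 : ∀ i : Fin k, y i.succ 1 = 1) (hz : ∀ j, hev (algebraMap K Ω) D (f j) y = 0)
    (hal : AlgebraicIndependent K (fun i : Fin k => y i.succ 0)) : False := by
  rcases h0 with h0 | h0
  · obtain ⟨R, -, a, -, hR, -, ha, -⟩ := hf.elim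
    apply hR
    apply (algebraicIndependent_iff_injective_aeval.1 hal)
    rw [map_zero]
    have := congrArg (Polynomial.eval₂RingHom (aeval (fun i : Fin k => y i.succ 0) :
      MvPolynomial (Fin k) K →ₐ[K] Ω).toRingHom (y 0 0)) ha
    rw [map_sum] at this
    simp only [map_mul] at this
    have h2 : ∀ i, y i 1 = 1 := fun i => by
      refine Fin.cases h0 (fun i => h1 i) i
    have h3 : ∀ j, (Polynomial.eval₂RingHom (aeval (fun i : Fin k => y i.succ 0) :
      MvPolynomial (Fin k) K →ₐ[K] Ω).toRingHom (y 0 0)) (finSuccEquiv K k (f j)) = 0 := by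
      intro j
      rw [← hz j, hev_aff D (f j) y h2]
      exact aeval_cons_finSuccEquiv (fun i => y i 0) (f j)
    simp only [h3, mul_zero, Finset.sum_const_zero] at this
    simpa using this
  · obtain ⟨j, hj⟩ := coeffD_ne hf
    apply hj
    apply (algebraicIndependent_iff_injective_aeval.1 hal)
    rw [map_zero, ← hev_inf D (f j) (hf.deg j 0) y h0 h1, hz j]

theorem gTD (hP : G_PERM) : G_TD := by
  intro K _ n hn ι _ D f hf Ω _ _ y hy hz
  classical
  set P : Finset (Fin n) → Prop := fun S => (∀ i ∈ S, y i 1 = 1) ∧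
    AlgebraicIndepOn K (fun i => y i 0) (S : Set (Fin n)) with hPdef
  have hPe : P ∅ := by
    refine ⟨by simp, ?_⟩
    have : IsEmpty ((∅ : Finset (Fin n)) : Set (Fin n)) := by simp
    exact algebraicIndependent_empty_type
  obtain ⟨S, hS, hmax⟩ := Finset.exists_max_image
    ((Finset.univ : Finset (Finset (Fin n))).filter P) (fun S => S.card) ⟨∅, by simp [hPe]⟩
  rw [Finset.mem_filter] at hS
  obtain ⟨-, hS1, hS2⟩ := hS
  by_cases hc : S.card + 2 ≤ n
  · refine ⟨S.image (fun i => y i 0), ?_, ?_⟩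
    · have := Finset.card_image_le (s := S) (f := fun i => y i 0)
      omega
    · intro i hi
      by_contra hcon
      rw [IntermediateField.isAlgebraic_adjoin_iff] at hcon
      have htr : Transcendental (Algebra.adjoin K ((fun i => y i 0) '' (S : Set (Fin n))))
          (y i 0) := by
        rw [Transcendental]
        rwa [Finset.coe_image] at hcon
      have h1 := AlgebraicIndepOn.insert hS2 htr
      have hiS : i ∉ S := by
        intro hiS
        exact htr (isAlgebraic_algebraMap (⟨_, Algebra.subset_adjoin ⟨i, hiS, rfl⟩⟩ :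
          Algebra.adjoin K ((fun i => y i 0) '' (S : Set (Fin n)))))
      have h2 : P (insert i S) := by
        refine ⟨?_, ?_⟩
        · intro j hj
          rcases Finset.mem_insert.1 hj with rfl | hj
          · exact hi
          · exact hS1 j hj
        · rw [Finset.coe_insert]; exact h1
      have h3 := hmax (insert i S) (by simp [h2])
      simp only [Finset.card_insert_of_notMem hiS] at h3
      omega
  · exfalso
    obtain ⟨i₀, hi₀⟩ : ∃ i₀ : Fin n, ∀ i, i ≠ i₀ → i ∈ S := by
      have hle : Sᶜ.card ≤ 1 := by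
        rw [Finset.card_compl, Fintype.card_fin]; omega
      rcases Finset.eq_empty_or_nonempty Sᶜ with he | ⟨i₀, hi₀⟩
      · refine ⟨⟨0, by omega⟩, fun i _ => ?_⟩
        by_contra hcon
        have : i ∈ Sᶜ := Finset.mem_compl.2 hcon
        rw [he] at this
        simp at this
      · refine ⟨i₀, fun i hi => ?_⟩
        by_contra hcon
        exact hi (Finset.card_le_one.1 hle i (Finset.mem_compl.2 hcon) i₀ hi₀)
    obtain ⟨k, rfl⟩ : ∃ k, n = k + 1 := ⟨n - 1, by omega⟩
    set σ : Equiv.Perm (Fin (k + 1)) := Equiv.swap 0 i₀ with hσ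
    have hσσ : ∀ i, σ (σ i) = i := fun i => by
      have h := congrArg (fun e : Equiv.Perm (Fin (k + 1)) => e i) (Equiv.swap_swap (0 : Fin (k + 1)) i₀)
      exact h
    have hf' := hP K (k + 1) ι D f σ hf
    have hne : ∀ i : Fin k, σ i.succ ≠ i₀ := by
      intro i h
      have h1 := congrArg σ h
      rw [hσσ, hσ, Equiv.swap_apply_right] at h1
      exact Fin.succ_ne_zero i h1
    refine td0 hf' (fun i => y (σ i)) ?_ ?_ ?_ ?_
    · exact hy _
    · intro i
      exact hS1 _ (hi₀ _ (hne i))
    · intro j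
      rw [hev_rename]
      simp only [hσσ]
      exact hz j
    · have h1 := AlgebraicIndependent.comp hS2
        (fun i : Fin k => (⟨σ i.succ, hi₀ _ (hne i)⟩ : ((S : Finset _) : Set (Fin (k + 1)))))
        (fun a b h => by
          have h2 : σ a.succ = σ b.succ := congrArg Subtype.val h
          exact Fin.succ_injective _ (σ.injective h2))
      exact h1

end

end Pool.Agent.Helper63.RO
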